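import Pool.Agent.Y803.GR.Irr2
import Pool.Agent.Results.MP_64b2bf_al.InfDimIrrepF2

/-!
MP_64b2bf_al: over EVERY field `k` of characteristic `2` the infinite-dimensional irreducible
representations of the first Grigorchuk group, or of any group `M` which has it as a section,
separate the elements of its group algebra.

The radical of `k[G]` is zero (`Pool.Agent.Y803.GR.jacobson_Grig`).  If `x ≠ 0` then
`y = x (g - 1) ≠ 0` for some `g`, because `G` is infinite; a simple module on which `y` does not act
as zero is not trivial, hence (Kolchin) infinite-dimensional, and `x` does not act as zero on it.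
For a group `M` with a section `S → G` one induces.
-/

set_option autoImplicit false

namespace Pool.Agent.Results.MP_64b2bf_al.SeparatingEveryField

open Pool.Agent.Y803.GR Pool.Agent.Results.MP_2e8808_al.GrigorchukJacobson

universe u v

/-- Let `k` be a field of characteristic `2`, `Grig = ⟨a, b, c, d⟩` the first Grigorchuk group, `S` a
subgroup of a group `M` and `f : S → Grig` a surjective homomorphism (for example `M = S = Grig` and
the identity). Then for every `x ∈ k[S]` whose image in `k[Grig]` is not zero there is an
infinite-dimensional irreducible representation of `M` over `k` on which `x` does not act as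
zero. -/
theorem result (k : Type u) [Field k] [CharP k 2] (M : Type v) [Group M] (S : Subgroup M)
    (f : S →* Grig) (hf : Function.Surjective f) (x : MonoidAlgebra k S)
    (hx : MonoidAlgebra.mapDomainAlgHom k k f x ≠ 0) :
    ∃ (V : Type (max u v)) (_ : AddCommGroup V) (_ : Module k V) (ρ : Representation k M V),
      Nontrivial V ∧
      (∀ W : Submodule k V, (∀ g : M, ∀ w ∈ W, ρ g w ∈ W) → W = ⊥ ∨ W = ⊤) ∧
      ¬ FiniteDimensional k V ∧
      ρ.asAlgebraHom (MonoidAlgebra.mapDomainAlgHom k k S.subtype x) ≠ 0 :=
  detects_Grig k InfDimIrrepF2.isPGroup M S f hf x hx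

end Pool.Agent.Results.MP_64b2bf_al.SeparatingEveryField
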